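import Pool.Agent.Lib.MP_03d093_al.Grig

/-!
# MP_03d093_al : spherical growth versus ball growth

The definitions (the word length, the growth functions, `GrowthEquiv`) are in
`Pool.Agent.Lib.MP_03d093_al.General`, the Grigorchuk group `G` with the generating set
`gens = {a,b,c,d}` is defined in `Pool.Agent.Lib.MP_03d093_al.Grig`.

Idea of the proof. Let `h_0 = 1, h_1, ..., h_{2n} = h` be the vertices of a geodesic to an element
`h` of length `2n`. If `|g| ≤ n`, then `|g h_i| = n` for some `i`, so `γ(n) ≤ (2n+1) γ^sph(n)`. With
the sum of the spherical growth over the radii `C n, C (n+1), ..., 2 C n` this gives the criterion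
`n γ(n) ≤ γ(Cn)`, which does not depend on the generating set, holds for exponential growth, and
fails for polynomial growth. For the Grigorchuk group it follows from `γ(n)^2 ≤ 64 γ(6n+2)`: the
stabilizer of the two subtrees of the root contains lifts of all elements of `G`, and the other
section is in a group of order 8.
-/

set_option autoImplicit false

namespace Pool.Agent.Results.MP_03d093_al.GrowthCriterion

open Pool.Agent.Lib.MP_03d093_al

universe u

/-- (1) For the first Grigorchuk group `G` and its generating set `{a,b,c,d}` the spherical growth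
function and the growth function are equivalent. (2) The same holds for every finite generating set
of `G`. (3) For every infinite group `H` with a finite generating set `S`: `γ(n) ≤ (2n+1) γ^sph(n)`
for all `n`; `γ^sph ∼ γ` if and only if for some `C ≥ 1` one has `n γ(n) ≤ γ(Cn)` for all `n ≥ 1`;
hence `γ^sph ∼ γ` if the growth is exponential, and `γ^sph ≁ γ` if it is bounded by a polynomial. -/
theorem result :
    GrowthEquiv (sphGrowth gens) (ballGrowth gens) ∧
    (∀ S : Set G, S.Finite → Subgroup.closure S = ⊤ →
      GrowthEquiv (sphGrowth S) (ballGrowth S)) ∧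
    ∀ (H : Type u) [Group H] [Infinite H] (S : Set H), S.Finite → Subgroup.closure S = ⊤ →
      (∀ n, ballGrowth S n ≤ (2 * n + 1) * sphGrowth S n) ∧
      (GrowthEquiv (sphGrowth S) (ballGrowth S) ↔
        ∃ C : ℕ, 1 ≤ C ∧ ∀ n : ℕ, 1 ≤ n → n * ballGrowth S n ≤ ballGrowth S (C * n)) ∧
      ((∃ r : ℝ, 1 < r ∧ ∀ n : ℕ, r ^ n ≤ ballGrowth S n) →
        GrowthEquiv (sphGrowth S) (ballGrowth S)) ∧
      ((∃ D : ℕ, ∀ n : ℕ, 1 ≤ n → ballGrowth S n ≤ D * n ^ D) →
        ¬ GrowthEquiv (sphGrowth S) (ballGrowth S)) :=
  ⟨grig gens_finite gens_closure, fun _ hfin hS => grig hfin hS,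
    fun _ _ _ _ hfin hS => ⟨ball_le_sphere hfin hS, criterion hfin hS,
      fun ⟨_, hr, h⟩ => exponential hfin hS hr h, fun ⟨_, h⟩ => polynomial hfin hS h⟩⟩

end Pool.Agent.Results.MP_03d093_al.GrowthCriterion
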